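import Pool.Agent.Lib.MP_340815_al.H95.Explicit

/-!
# MP_340815_al: an explicit graph braid group which is a right-angled Artin group with connected
defining graph

`Gamma` is two copies of `K_{2,3}` joined by a bridge, `n = 3`, and `Delta` is an explicit connected
graph with 10 vertices and 14 edges. Proof by helpers 45, 49, 64, 75, 86 (see `S01141`).
-/

set_option autoImplicit false

namespace Pool.Agent.Results.MP_340815_al.ThetaBridge

/-- The geometric realisation of a simple graph: the vertices are the unit vectors of `V → ℝ` and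
every edge `uv` is the straight segment between the unit vectors of `u` and `v`. -/
abbrev Realisation {V : Type} [DecidableEq V] (G : SimpleGraph V) : Type :=
  {p : V → ℝ // ∃ u v : V, (u = v ∨ G.Adj u v) ∧
    ∃ t : ℝ, 0 ≤ t ∧ t ≤ 1 ∧ p = t • Pi.single u (1 : ℝ) + (1 - t) • Pi.single v (1 : ℝ)}

/-- The unordered configuration space of `n` points of `Y`: injective maps `Fin n → Y` up to
permutations of `Fin n`, with the quotient topology. -/
abbrev UC (n : ℕ) (Y : Type*) : Type _ :=
  Quot (fun f g : {f : Fin n → Y // Function.Injective f} => ∃ σ : Equiv.Perm (Fin n), g.1 = f.1 ∘ σ)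

/-- The right-angled Artin group of a simple graph. -/
abbrev RAAG {W : Type} (H : SimpleGraph W) : Type :=
  PresentedGroup {r : FreeGroup W | ∃ a b : W, H.Adj a b ∧
    r = FreeGroup.of a * FreeGroup.of b * (FreeGroup.of a)⁻¹ * (FreeGroup.of b)⁻¹}

/-- Two copies of `K_{2,3}`, with parts `{0, 1}`, `{2, 3, 4}` and `{5, 6}`, `{7, 8, 9}`, joined by
the bridge `27`. -/
def Gamma : SimpleGraph (Fin 10) := SimpleGraph.fromEdgeSet
  {s(0, 2), s(0, 3), s(0, 4), s(1, 2), s(1, 3), s(1, 4), s(2, 7),
    s(5, 7), s(5, 8), s(5, 9), s(6, 7), s(6, 8), s(6, 9)}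

/-- The defining graph. -/
def Delta : SimpleGraph (Fin 10) := SimpleGraph.fromEdgeSet
  {s(0, 1), s(0, 2), s(0, 5), s(0, 6), s(1, 3), s(1, 4), s(1, 7), s(2, 3), s(2, 4), s(2, 7),
    s(2, 9), s(3, 5), s(3, 6), s(3, 8)}

open Pool.Agent.MP_340815_al

theorem gamma_eq : Gamma = Gam := by
  ext u v
  unfold Gamma
  rw [SimpleGraph.fromEdgeSet_adj]
  revert u v
  simp only [Set.mem_insert_iff, Set.mem_singleton_iff]
  decide

theorem delta_eq : Delta = H75.Delta := by
  ext u v
  unfold Delta
  rw [SimpleGraph.fromEdgeSet_adj]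
  revert u v
  simp only [Set.mem_insert_iff, Set.mem_singleton_iff]
  decide

/-- The map of configuration spaces induced by an injective map. -/
def ucMap {Y Z : Type*} (n : ℕ) (f : Y → Z) (hf : Function.Injective f) : UC n Y → UC n Z :=
  Quot.map (fun a => ⟨f ∘ a.1, hf.comp a.2⟩) (by
    rintro a b ⟨σ, h⟩
    exact ⟨σ, by
      show f ∘ b.1 = (f ∘ a.1) ∘ σ
      rw [h]; rfl⟩)

theorem continuous_ucMap {Y Z : Type*} [TopologicalSpace Y] [TopologicalSpace Z] (n : ℕ)
    (f : Y → Z) (hf : Function.Injective f) (hc : Continuous f) : Continuous (ucMap n f hf) := by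
  unfold ucMap Quot.map
  refine continuous_quot_lift _ (continuous_quot_mk.comp ?_)
  refine Continuous.subtype_mk (continuous_pi fun i => hc.comp ?_) _
  exact (continuous_apply i).comp continuous_subtype_val

theorem ucMap_ucMap {Y Z : Type*} (n : ℕ) (f : Y → Z) (hf : Function.Injective f) (g : Z → Y)
    (hg : Function.Injective g) (h : ∀ y, g (f y) = y) (x : UC n Y) :
    ucMap n g hg (ucMap n f hf x) = x := by
  obtain ⟨a, rfl⟩ := Quot.exists_rep x
  show Quot.mk _ _ = Quot.mk _ _
  congr 1
  exact Subtype.ext (funext fun i => h (a.1 i))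

/-- A homeomorphism of spaces induces one of configuration spaces. -/
def ucHomeo {Y Z : Type*} [TopologicalSpace Y] [TopologicalSpace Z] (n : ℕ) (e : Y ≃ₜ Z) :
    UC n Y ≃ₜ UC n Z where
  toFun := ucMap n e e.injective
  invFun := ucMap n e.symm e.symm.injective
  left_inv := ucMap_ucMap n _ _ _ _ (fun y => e.symm_apply_apply y)
  right_inv := ucMap_ucMap n _ _ _ _ (fun y => e.apply_symm_apply y)
  continuous_toFun := continuous_ucMap n _ _ e.continuous
  continuous_invFun := continuous_ucMap n _ _ e.symm.continuous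

/-- Homeomorphic spaces have isomorphic fundamental groups. -/
theorem pi1_homeo {Y Z : Type*} [TopologicalSpace Y] [TopologicalSpace Z] (e : Y ≃ₜ Z) (y : Y) :
    Nonempty (FundamentalGroup Y y ≃* FundamentalGroup Z (e y)) :=
  ⟨(FundamentalGroupoidFunctor.equivOfHomotopyEquiv
    e.toHomotopyEquiv).fullyFaithfulFunctor.mulEquivEnd (FundamentalGroupoid.mk y)⟩

/-- Two generators which are not adjacent do not commute. -/
theorem delta_noncomm : ∃ a b : RAAG Delta, a * b ≠ b * a := by
  by_contra hcon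
  push Not at hcon
  let f : Fin 10 → Equiv.Perm (Fin 3) := fun w =>
    if w = 0 then Equiv.swap 0 1 else if w = 3 then Equiv.swap 1 2 else 1
  have hadj : ∀ u v : Fin 10, H75.Delta.Adj u v → f u * f v = f v * f u := by decide
  have hf : ∀ a b, Delta.Adj a b → Commute (f a) (f b) := by
    intro a b h
    rw [delta_eq] at h
    exact hadj a b h
  let φ : RAAG Delta →* Equiv.Perm (Fin 3) := H75.raagLift Delta f hf
  have h1 := congrArg φ (hcon (PresentedGroup.of 0) (PresentedGroup.of 3))
  have e0 : φ (PresentedGroup.of 0) = f 0 := H75.raagLift_of Delta f hf 0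
  have e3 : φ (PresentedGroup.of 3) = f 3 := H75.raagLift_of Delta f hf 3
  rw [map_mul, map_mul, e0, e3] at h1
  exact absurd h1 (by decide)

/-- The complement of `Delta` is connected. -/
theorem delta_compl_connected : Deltaᶜ.Connected := by
  rw [delta_eq, SimpleGraph.connected_iff_exists_forall_reachable]
  refine ⟨8, ?_⟩
  have h : ∀ a b : Fin 10, H75.Deltaᶜ.Adj a b → H75.Deltaᶜ.Reachable a b := fun a b h => h.reachable
  have hd : ∀ b : Fin 10, b ≠ 8 → b ≠ 3 → H75.Deltaᶜ.Adj 8 b := by decide
  intro w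
  by_cases h8 : w = 8
  · rw [h8]
  · by_cases h3 : w = 3
    · rw [h3]
      exact (h 8 0 (by decide)).trans (h 0 3 (by decide))
    · exact h 8 w (hd w h8 h3)

theorem result :
    Gamma.Connected ∧ Delta.Connected ∧ Deltaᶜ.Connected ∧
    ¬ IsCyclic (RAAG Delta) ∧ (∃ a b : RAAG Delta, a * b ≠ b * a) ∧
    ∀ (Y : Type*) [TopologicalSpace Y], Nonempty (Y ≃ₜ Realisation Gamma) →
      PathConnectedSpace (UC 3 Y) ∧
      ∀ x : UC 3 Y, Nonempty (FundamentalGroup (UC 3 Y) x ≃* RAAG Delta) := by
  refine ⟨gamma_eq ▸ Gam_connected, delta_eq ▸ H75.Delta_connected, delta_compl_connected, ?_,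
    delta_noncomm, ?_⟩
  · rw [delta_eq]
    exact H75.Delta_not_cyclic
  · rintro Y _ ⟨e⟩
    have hpc : PathConnectedSpace (UC 3 (Realisation Gamma)) := by
      rw [gamma_eq]
      exact Cert.conf_pathConnected
    have hpi : ∀ x : UC 3 (Realisation Gamma),
        Nonempty (FundamentalGroup (UC 3 (Realisation Gamma)) x ≃* RAAG Delta) := by
      rw [gamma_eq, delta_eq]
      exact Cert.pi1Explicit
    refine ⟨?_, fun x => ?_⟩
    · exact (ucHomeo 3 e).symm.surjective.pathConnectedSpace (ucHomeo 3 e).symm.continuous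
    · obtain ⟨a⟩ := pi1_homeo (ucHomeo 3 e) x
      obtain ⟨b⟩ := hpi (ucHomeo 3 e x)
      exact ⟨a.trans b⟩

end Pool.Agent.Results.MP_340815_al.ThetaBridge
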